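import Mathlib

set_option autoImplicit false

namespace Pool.Agent.Helper143.OneMax

open Finset

set_option linter.unusedSectionVars false

variable {ι : Type*} [Fintype ι] [DecidableEq ι]

/-- indicator of a flip -/
def ind (f : ι → Bool) (k : ι) : ℝ := if f k then 1 else 0

theorem ind_sq (f : ι → Bool) (k : ι) : ind f k ^ 2 = ind f k := by
  unfold ind; split_ifs <;> simp

theorem ind_nonneg (f : ι → Bool) (k : ι) : 0 ≤ ind f k := by
  unfold ind; split_ifs <;> simp

theorem ind_le_one (f : ι → Bool) (k : ι) : ind f k ≤ 1 := by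
  unfold ind; split_ifs <;> simp

/-- number of flips in `E` -/
def cnt (E : Finset ι) (f : ι → Bool) : ℝ := ∑ k ∈ E, ind f k

/-- exchange two coordinates -/
def sw (k l : ι) (f : ι → Bool) : ι → Bool := fun i => f (Equiv.swap k l i)

theorem sw_sw (k l : ι) (f : ι → Bool) : sw k l (sw k l f) = f := by
  funext i; simp [sw]

/-- swap of coordinates as a permutation of all flip patterns -/
def swE (k l : ι) : Equiv.Perm (ι → Bool) := ⟨sw k l, sw k l, sw_sw k l, sw_sw k l⟩

/-- invariance under swaps inside `E` -/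
def Inv {β : Type*} (E : Finset ι) (w : (ι → Bool) → β) : Prop :=
  ∀ k ∈ E, ∀ l ∈ E, ∀ f, w (sw k l f) = w f

theorem swap_mem_iff {E : Finset ι} {k l : ι} (hk : k ∈ E) (hl : l ∈ E) (i : ι) :
    i ∈ E ↔ Equiv.swap k l i ∈ E := by
  by_cases h1 : i = k
  · subst h1; simp [hk, hl]
  · by_cases h2 : i = l
    · subst h2; simp [hk, hl]
    · rw [Equiv.swap_apply_of_ne_of_ne h1 h2]

theorem sum_sw {E : Finset ι} {k l : ι} (hk : k ∈ E) (hl : l ∈ E) (g : ι → ℝ) :
    ∑ i ∈ E, g (Equiv.swap k l i) = ∑ i ∈ E, g i :=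
  Finset.sum_equiv (Equiv.swap k l) (swap_mem_iff hk hl) (fun _ _ => rfl)

theorem cnt_inv (E : Finset ι) : Inv E (cnt E) := by
  intro k hk l hl f
  exact sum_sw hk hl (fun i => ind f i)

/-- centred linear statistic -/
noncomputable def X (E : Finset ι) (c : ι → ℝ) (f : ι → Bool) : ℝ :=
  ∑ k ∈ E, c k * (ind f k - cnt E f / E.card)

theorem X_eq (E : Finset ι) (c : ι → ℝ) (f : ι → Bool) :
    X E c f = ∑ k ∈ E, c k * ind f k - (cnt E f / E.card) * ∑ k ∈ E, c k := by
  unfold X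
  rw [Finset.mul_sum, ← Finset.sum_sub_distrib]
  exact Finset.sum_congr rfl (fun k _ => by ring)

theorem X_sub (E : Finset ι) (c : ι → ℝ) (f : ι → Bool) {k l : ι} (hk : k ∈ E) (hl : l ∈ E) :
    X E c f - X E c (sw k l f) = (c k - c l) * (ind f k - ind f l) := by
  rw [X_eq, X_eq, cnt_inv E k hk l hl f]
  have h1 : ∑ i ∈ E, c i * ind (sw k l f) i = ∑ i ∈ E, c (Equiv.swap k l i) * ind f i := by
    rw [← sum_sw hk hl (fun i => c i * ind (sw k l f) i)]
    refine Finset.sum_congr rfl (fun i _ => ?_)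
    simp [ind, sw]
  rw [h1]
  have h2 : ∑ i ∈ E, c i * ind f i - ∑ i ∈ E, c (Equiv.swap k l i) * ind f i
      = (c k - c l) * (ind f k - ind f l) := by
    rw [← Finset.sum_sub_distrib]
    by_cases hkl : k = l
    · subst hkl; simp
    · have hsub : ({k, l} : Finset ι) ⊆ E := by
        intro i hi
        simp only [Finset.mem_insert, Finset.mem_singleton] at hi
        rcases hi with rfl | rfl <;> assumption
      rw [← Finset.sum_subset hsub]
      · rw [Finset.sum_pair hkl]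
        simp
        ring
      · intro i _ hi
        simp only [Finset.mem_insert, Finset.mem_singleton, not_or] at hi
        rw [Equiv.swap_apply_of_ne_of_ne hi.1 hi.2]
        ring
  linarith

theorem sum_pairs (E : Finset ι) (hE : E.Nonempty) (c : ι → ℝ) (f : ι → Bool) :
    ∑ k ∈ E, ∑ l ∈ E, (c k - c l) * (ind f k - ind f l) = 2 * E.card * X E c f := by
  have hc : (E.card : ℝ) ≠ 0 := by
    have := hE.card_pos
    positivity
  have h1 : ∀ k ∈ E, ∑ l ∈ E, (c k - c l) * (ind f k - ind f l)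
      = E.card * (c k * ind f k) - c k * cnt E f - (∑ l ∈ E, c l) * ind f k
        + ∑ l ∈ E, c l * ind f l := by
    intro k _
    have : ∀ l, (c k - c l) * (ind f k - ind f l)
        = c k * ind f k - c k * ind f l - c l * ind f k + c l * ind f l := fun l => by ring
    simp only [this]
    rw [Finset.sum_add_distrib, Finset.sum_sub_distrib, Finset.sum_sub_distrib, Finset.sum_const,
      ← Finset.mul_sum, ← Finset.sum_mul, nsmul_eq_mul]
    rfl
  rw [Finset.sum_congr rfl h1, Finset.sum_add_distrib, Finset.sum_sub_distrib,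
    Finset.sum_sub_distrib, ← Finset.mul_sum, ← Finset.sum_mul, ← Finset.mul_sum, Finset.sum_const,
    nsmul_eq_mul, X_eq]
  unfold cnt
  field_simp
  ring

theorem sq_pairs (E : Finset ι) (f : ι → Bool) :
    ∑ k ∈ E, ∑ l ∈ E, (ind f k - ind f l) ^ 2 = 2 * (cnt E f * (E.card - cnt E f)) := by
  have h1 : ∀ k ∈ E, ∑ l ∈ E, (ind f k - ind f l) ^ 2
      = E.card * ind f k - 2 * ind f k * cnt E f + cnt E f := by
    intro k _
    have : ∀ l, (ind f k - ind f l) ^ 2 = ind f k - 2 * ind f k * ind f l + ind f l := fun l => by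
      have h1 := ind_sq f k
      have h2 := ind_sq f l
      nlinarith
    simp only [this]
    rw [Finset.sum_add_distrib, Finset.sum_sub_distrib, Finset.sum_const, ← Finset.mul_sum,
      nsmul_eq_mul]
    rfl
  rw [Finset.sum_congr rfl h1, Finset.sum_add_distrib, Finset.sum_sub_distrib, ← Finset.mul_sum,
    ← Finset.sum_mul, ← Finset.mul_sum, Finset.sum_const, nsmul_eq_mul]
  unfold cnt
  ring

/-! ### Powers -/

theorem pow_sub_mul_nonneg (x y : ℝ) (i k j : ℕ) (h : i + k = 2 * j) :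
    0 ≤ (x ^ i - y ^ i) * (x ^ k - y ^ k) := by
  rcases Nat.even_or_odd i with hi | hi
  · have hk : Even k := by
      rw [← Nat.even_add.1 (h ▸ even_two_mul j : Even (i + k))]; exact hi
    rw [← hi.pow_abs x, ← hi.pow_abs y, ← hk.pow_abs x, ← hk.pow_abs y]
    rcases le_total |x| |y| with hxy | hxy
    · have h1 := pow_le_pow_left₀ (abs_nonneg x) hxy i
      have h2 := pow_le_pow_left₀ (abs_nonneg x) hxy k
      exact mul_nonneg_of_nonpos_of_nonpos (by linarith) (by linarith)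
    · have h1 := pow_le_pow_left₀ (abs_nonneg y) hxy i
      have h2 := pow_le_pow_left₀ (abs_nonneg y) hxy k
      exact mul_nonneg (by linarith) (by linarith)
  · have hk : Odd k := by
      rcases Nat.even_or_odd k with hk | hk
      · exfalso
        have := (Nat.even_add.1 (h ▸ even_two_mul j : Even (i + k))).2 hk
        exact (Nat.not_even_iff_odd.2 hi) this
      · exact hk
    rcases le_total x y with hxy | hxy
    · have h1 := hi.pow_le_pow.2 hxy
      have h2 := hk.pow_le_pow.2 hxy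
      exact mul_nonneg_of_nonpos_of_nonpos (by linarith) (by linarith)
    · have h1 := hi.pow_le_pow.2 hxy
      have h2 := hk.pow_le_pow.2 hxy
      exact mul_nonneg (by linarith) (by linarith)

theorem geom_le (x y : ℝ) (j : ℕ) :
    ∑ i ∈ Finset.range (2 * j + 1), x ^ i * y ^ (2 * j - i)
      ≤ (2 * j + 1) * ((x ^ (2 * j) + y ^ (2 * j)) / 2) := by
  have h1 : ∑ i ∈ Finset.range (2 * j + 1), x ^ i * y ^ (2 * j - i)
      = ∑ i ∈ Finset.range (2 * j + 1), x ^ (2 * j - i) * y ^ i := by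
    rw [← Finset.sum_range_reflect]
    refine Finset.sum_congr rfl (fun i hi => ?_)
    have : i ≤ 2 * j := by simpa [Nat.lt_succ_iff] using hi
    have e1 : 2 * j + 1 - 1 - i = 2 * j - i := by omega
    have e2 : 2 * j - (2 * j - i) = i := by omega
    rw [e1, e2]
  have h2 : ∑ i ∈ Finset.range (2 * j + 1), x ^ i * y ^ (2 * j - i)
      = ∑ i ∈ Finset.range (2 * j + 1), (x ^ i * y ^ (2 * j - i) + x ^ (2 * j - i) * y ^ i) / 2 := by
    rw [← Finset.sum_div, Finset.sum_add_distrib, ← h1]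
    ring
  rw [h2]
  have h3 : ∀ i ∈ Finset.range (2 * j + 1), (x ^ i * y ^ (2 * j - i) + x ^ (2 * j - i) * y ^ i) / 2
      ≤ (x ^ (2 * j) + y ^ (2 * j)) / 2 := by
    intro i hi
    have hi' : i ≤ 2 * j := by simpa [Nat.lt_succ_iff] using hi
    have h := pow_sub_mul_nonneg x y i (2 * j - i) j (by omega)
    have e1 : x ^ (2 * j) = x ^ i * x ^ (2 * j - i) := by rw [← pow_add]; congr 1; omega
    have e2 : y ^ (2 * j) = y ^ i * y ^ (2 * j - i) := by rw [← pow_add]; congr 1; omega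
    rw [e1, e2]
    nlinarith
  refine (Finset.sum_le_sum h3).trans ?_
  rw [Finset.sum_const, Finset.card_range, nsmul_eq_mul]
  push_cast
  exact le_rfl

theorem pow_diff_le (x y : ℝ) (j : ℕ) :
    (x ^ (2 * j + 1) - y ^ (2 * j + 1)) * (x - y)
      ≤ (2 * j + 1) * ((x - y) ^ 2 * (x ^ (2 * j) + y ^ (2 * j)) / 2) := by
  have h := geom_sum₂_mul x y (2 * j + 1)
  have h2 : x ^ (2 * j + 1) - y ^ (2 * j + 1)
      = (∑ i ∈ Finset.range (2 * j + 1), x ^ i * y ^ (2 * j - i)) * (x - y) := by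
    rw [← h]
    congr 1
  rw [h2]
  have h3 := geom_le x y j
  have h4 : (∑ i ∈ Finset.range (2 * j + 1), x ^ i * y ^ (2 * j - i)) * (x - y) ^ 2
      ≤ (2 * j + 1) * ((x ^ (2 * j) + y ^ (2 * j)) / 2) * (x - y) ^ 2 :=
    mul_le_mul_of_nonneg_right h3 (sq_nonneg _)
  calc _ = (∑ i ∈ Finset.range (2 * j + 1), x ^ i * y ^ (2 * j - i)) * (x - y) ^ 2 := by ring
    _ ≤ _ := h4
    _ = _ := by ring

/-! ### The moment inequality -/

theorem sum_all_sw (k l : ι) (g : (ι → Bool) → ℝ) : ∑ f, g (sw k l f) = ∑ f, g f :=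
  Equiv.sum_comp (swE k l) g

theorem moment_step (E : Finset ι) (hE : E.Nonempty) (c : ι → ℝ) (hc : ∀ k, |c k| ≤ 2)
    (w : (ι → Bool) → ℝ) (hw0 : ∀ f, 0 ≤ w f) (hw : Inv E w) (j : ℕ) :
    E.card * ∑ f, w f * X E c f ^ (2 * j + 2)
      ≤ 8 * (2 * j + 1) * ∑ f, w f * (cnt E f * (E.card - cnt E f)) * X E c f ^ (2 * j) := by
  -- exchange identity
  have hX : ∀ f, 2 * E.card * (w f * X E c f ^ (2 * j + 2))
      = ∑ k ∈ E, ∑ l ∈ E, w f * X E c f ^ (2 * j + 1) * (X E c f - X E c (sw k l f)) := by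
    intro f
    have h1 : ∑ k ∈ E, ∑ l ∈ E, w f * X E c f ^ (2 * j + 1) * (X E c f - X E c (sw k l f))
        = ∑ k ∈ E, ∑ l ∈ E, w f * X E c f ^ (2 * j + 1) * ((c k - c l) * (ind f k - ind f l)) :=
      Finset.sum_congr rfl (fun k hk => Finset.sum_congr rfl (fun l hl => by
        rw [X_sub E c f hk hl]))
    rw [h1]
    simp only [← Finset.mul_sum]
    rw [sum_pairs E hE c f]
    ring
  have h2 : 2 * E.card * ∑ f, w f * X E c f ^ (2 * j + 2)
      = ∑ k ∈ E, ∑ l ∈ E, ∑ f, w f * X E c f ^ (2 * j + 1) * (X E c f - X E c (sw k l f)) := by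
    rw [Finset.mul_sum, Finset.sum_congr rfl (fun f _ => hX f), Finset.sum_comm]
    exact Finset.sum_congr rfl (fun k _ => Finset.sum_comm)
  have h3 : ∀ k ∈ E, ∀ l ∈ E,
      ∑ f, w f * X E c f ^ (2 * j + 1) * (X E c f - X E c (sw k l f))
      ≤ ∑ f, (2 * j + 1) / 2 * (w f * (16 * (ind f k - ind f l) ^ 2) * X E c f ^ (2 * j)) := by
    intro k hk l hl
    have e1 : ∑ f, w f * X E c f ^ (2 * j + 1) * (X E c f - X E c (sw k l f))
        = ∑ f, w f * X E c (sw k l f) ^ (2 * j + 1) * (X E c (sw k l f) - X E c f) := by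
      rw [← sum_all_sw k l (fun f => w f * X E c f ^ (2 * j + 1) * (X E c f - X E c (sw k l f)))]
      refine Finset.sum_congr rfl (fun f _ => ?_)
      simp only [sw_sw, hw k hk l hl]
    have e2 : ∑ f, w f * X E c f ^ (2 * j + 1) * (X E c f - X E c (sw k l f))
        = ∑ f, w f * ((X E c f ^ (2 * j + 1) - X E c (sw k l f) ^ (2 * j + 1))
            * (X E c f - X E c (sw k l f))) / 2 := by
      have e3 : ∑ f, w f * ((X E c f ^ (2 * j + 1) - X E c (sw k l f) ^ (2 * j + 1))
            * (X E c f - X E c (sw k l f))) / 2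
          = (∑ f, w f * X E c f ^ (2 * j + 1) * (X E c f - X E c (sw k l f))
            + ∑ f, w f * X E c (sw k l f) ^ (2 * j + 1) * (X E c (sw k l f) - X E c f)) / 2 := by
        rw [← Finset.sum_add_distrib, Finset.sum_div]
        exact Finset.sum_congr rfl (fun f _ => by ring)
      rw [e3, ← e1]
      ring
    rw [e2]
    have e4 : ∀ f, w f * ((X E c f ^ (2 * j + 1) - X E c (sw k l f) ^ (2 * j + 1))
            * (X E c f - X E c (sw k l f))) / 2
        ≤ (2 * j + 1) / 4 * (w f * (16 * (ind f k - ind f l) ^ 2) * X E c f ^ (2 * j))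
          + (2 * j + 1) / 4 * (w f * (16 * (ind f k - ind f l) ^ 2)
            * X E c (sw k l f) ^ (2 * j)) := by
      intro f
      have p1 := pow_diff_le (X E c f) (X E c (sw k l f)) j
      have p2 : (X E c f - X E c (sw k l f)) ^ 2 ≤ 16 * (ind f k - ind f l) ^ 2 := by
        rw [X_sub E c f hk hl, mul_pow]
        refine mul_le_mul_of_nonneg_right ?_ (sq_nonneg _)
        have := hc k
        have := hc l
        rw [abs_le] at *
        nlinarith
      have p3 : 0 ≤ X E c f ^ (2 * j) + X E c (sw k l f) ^ (2 * j) := by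
        have q1 : 0 ≤ X E c f ^ (2 * j) := by rw [pow_mul]; positivity
        have q2 : 0 ≤ X E c (sw k l f) ^ (2 * j) := by rw [pow_mul]; positivity
        linarith
      have p4 : (X E c f - X E c (sw k l f)) ^ 2 * (X E c f ^ (2 * j) + X E c (sw k l f) ^ (2 * j))
          ≤ 16 * (ind f k - ind f l) ^ 2 * (X E c f ^ (2 * j) + X E c (sw k l f) ^ (2 * j)) :=
        mul_le_mul_of_nonneg_right p2 p3
      have p5 : (X E c f ^ (2 * j + 1) - X E c (sw k l f) ^ (2 * j + 1))
            * (X E c f - X E c (sw k l f))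
          ≤ (2 * j + 1) * (16 * (ind f k - ind f l) ^ 2
            * (X E c f ^ (2 * j) + X E c (sw k l f) ^ (2 * j)) / 2) := by
        refine p1.trans ?_
        refine mul_le_mul_of_nonneg_left ?_ (by positivity)
        linarith
      have p6 := mul_le_mul_of_nonneg_left p5 (hw0 f)
      calc _ ≤ w f * ((2 * j + 1) * (16 * (ind f k - ind f l) ^ 2
            * (X E c f ^ (2 * j) + X E c (sw k l f) ^ (2 * j)) / 2)) / 2 := by linarith
        _ = _ := by ring
    refine (Finset.sum_le_sum (fun f _ => e4 f)).trans ?_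
    rw [Finset.sum_add_distrib]
    have e5 : ∑ f, (2 * (j : ℝ) + 1) / 4 * (w f * (16 * (ind f k - ind f l) ^ 2)
            * X E c (sw k l f) ^ (2 * j))
        = ∑ f, (2 * (j : ℝ) + 1) / 4 * (w f * (16 * (ind f k - ind f l) ^ 2)
            * X E c f ^ (2 * j)) := by
      rw [← sum_all_sw k l (fun f => (2 * (j : ℝ) + 1) / 4 * (w f * (16 * (ind f k - ind f l) ^ 2)
            * X E c f ^ (2 * j)))]
      refine Finset.sum_congr rfl (fun f _ => ?_)
      rw [hw k hk l hl]
      have : (ind (sw k l f) k - ind (sw k l f) l) ^ 2 = (ind f k - ind f l) ^ 2 := by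
        simp only [ind, sw, Equiv.swap_apply_left, Equiv.swap_apply_right]
        ring
      rw [this]
    rw [e5, ← Finset.sum_add_distrib]
    exact le_of_eq (Finset.sum_congr rfl (fun f _ => by ring))
  have h4 : 2 * E.card * ∑ f, w f * X E c f ^ (2 * j + 2)
      ≤ ∑ k ∈ E, ∑ l ∈ E,
        ∑ f, (2 * j + 1) / 2 * (w f * (16 * (ind f k - ind f l) ^ 2) * X E c f ^ (2 * j)) := by
    rw [h2]
    exact Finset.sum_le_sum (fun k hk => Finset.sum_le_sum (fun l hl => h3 k hk l hl))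
  have h5 : ∑ k ∈ E, ∑ l ∈ E,
        ∑ f, (2 * (j : ℝ) + 1) / 2 * (w f * (16 * (ind f k - ind f l) ^ 2) * X E c f ^ (2 * j))
      = 2 * (8 * (2 * j + 1) * ∑ f, w f * (cnt E f * (E.card - cnt E f)) * X E c f ^ (2 * j)) := by
    have e1 : ∑ k ∈ E, ∑ l ∈ E,
        ∑ f, (2 * (j : ℝ) + 1) / 2 * (w f * (16 * (ind f k - ind f l) ^ 2) * X E c f ^ (2 * j))
        = ∑ f, ∑ k ∈ E, ∑ l ∈ E,
          (2 * (j : ℝ) + 1) / 2 * (w f * (16 * (ind f k - ind f l) ^ 2) * X E c f ^ (2 * j)) := by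
      rw [Finset.sum_congr rfl (fun k _ => Finset.sum_comm)]
      exact Finset.sum_comm
    rw [e1]
    have e2 : ∀ f, ∑ k ∈ E, ∑ l ∈ E,
          (2 * (j : ℝ) + 1) / 2 * (w f * (16 * (ind f k - ind f l) ^ 2) * X E c f ^ (2 * j))
        = 2 * (8 * (2 * j + 1)) * (w f * (cnt E f * (E.card - cnt E f)) * X E c f ^ (2 * j)) := by
      intro f
      have : ∀ k l, (2 * (j : ℝ) + 1) / 2 * (w f * (16 * (ind f k - ind f l) ^ 2) * X E c f ^ (2 * j))
          = 8 * (2 * j + 1) * (w f * X E c f ^ (2 * j)) * (ind f k - ind f l) ^ 2 := fun k l => by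
        ring
      simp only [this, ← Finset.mul_sum]
      rw [sq_pairs]
      ring
    rw [Finset.sum_congr rfl (fun f _ => e2 f), ← Finset.mul_sum]
    ring
  rw [h5] at h4
  linarith

/-- the variance parameter -/
noncomputable def kap (E : Finset ι) (f : ι → Bool) : ℝ := cnt E f * (E.card - cnt E f) / E.card

theorem cnt_nonneg (E : Finset ι) (f : ι → Bool) : 0 ≤ cnt E f :=
  Finset.sum_nonneg (fun k _ => ind_nonneg f k)

theorem cnt_le (E : Finset ι) (f : ι → Bool) : cnt E f ≤ E.card := by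
  unfold cnt
  calc ∑ k ∈ E, ind f k ≤ ∑ k ∈ E, (1 : ℝ) := Finset.sum_le_sum (fun k _ => ind_le_one f k)
    _ = E.card := by simp

theorem kap_nonneg (E : Finset ι) (f : ι → Bool) : 0 ≤ kap E f := by
  unfold kap
  have := cnt_nonneg E f
  have := cnt_le E f
  exact div_nonneg (mul_nonneg (by linarith) (by linarith)) (Nat.cast_nonneg _)

theorem kap_inv (E : Finset ι) : Inv E (kap E) := by
  intro k hk l hl f
  unfold kap
  rw [cnt_inv E k hk l hl f]

theorem moment_step' (E : Finset ι) (c : ι → ℝ) (hc : ∀ k, |c k| ≤ 2)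
    (w : (ι → Bool) → ℝ) (hw0 : ∀ f, 0 ≤ w f) (hw : Inv E w) (j : ℕ) :
    ∑ f, w f * (X E c f ^ 2 / kap E f) ^ (j + 1)
      ≤ 8 * (2 * j + 1) * ∑ f, w f * (X E c f ^ 2 / kap E f) ^ j := by
  rcases E.eq_empty_or_nonempty with rfl | hE
  · have h1 : ∀ f, w f * (X ∅ c f ^ 2 / kap ∅ f) ^ (j + 1) = 0 := by
      intro f; simp [kap]
    rw [Finset.sum_congr rfl (fun f _ => h1 f)]
    simp only [Finset.sum_const_zero]
    refine mul_nonneg (by positivity) (Finset.sum_nonneg (fun f _ => mul_nonneg (hw0 f) ?_))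
    simp [kap]
  have hcard : (0 : ℝ) < E.card := by exact_mod_cast hE.card_pos
  have h := moment_step E hE c hc (fun f => w f * (kap E f ^ (j + 1))⁻¹)
    (fun f => mul_nonneg (hw0 f) (inv_nonneg.2 (pow_nonneg (kap_nonneg E f) _)))
    (by
      intro k hk l hl f
      simp only
      rw [hw k hk l hl, kap_inv E k hk l hl]) j
  have h1 : ∀ f, w f * (X E c f ^ 2 / kap E f) ^ (j + 1)
      = w f * (kap E f ^ (j + 1))⁻¹ * X E c f ^ (2 * j + 2) := by
    intro f
    rw [div_pow, div_eq_mul_inv, ← pow_mul]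
    ring
  rw [Finset.sum_congr rfl (fun f _ => h1 f)]
  have h2 : ∀ f, w f * (kap E f ^ (j + 1))⁻¹ * (cnt E f * (E.card - cnt E f)) * X E c f ^ (2 * j)
      ≤ E.card * (w f * (X E c f ^ 2 / kap E f) ^ j) := by
    intro f
    have e1 : cnt E f * (E.card - cnt E f) = E.card * kap E f := by
      unfold kap
      field_simp
    rw [e1]
    rcases eq_or_lt_of_le (kap_nonneg E f) with h0 | h0
    · rw [← h0]
      simp only [mul_zero, zero_mul]
      have : (0 : ℝ) ≤ (X E c f ^ 2 / 0) ^ j := by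
        rw [div_zero]; positivity
      exact mul_nonneg hcard.le (mul_nonneg (hw0 f) this)
    · apply le_of_eq
      rw [div_pow, ← pow_mul, pow_succ]
      field_simp
  have h3 : 8 * (2 * (j : ℝ) + 1) * ∑ f, w f * (kap E f ^ (j + 1))⁻¹ *
      (cnt E f * (E.card - cnt E f)) * X E c f ^ (2 * j)
      ≤ 8 * (2 * j + 1) * ∑ f, E.card * (w f * (X E c f ^ 2 / kap E f) ^ j) :=
    mul_le_mul_of_nonneg_left (Finset.sum_le_sum (fun f _ => h2 f)) (by positivity)
  have h4 := h.trans h3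
  rw [← Finset.mul_sum] at h4
  have h5 : (E.card : ℝ) * ∑ f, w f * (kap E f ^ (j + 1))⁻¹ * X E c f ^ (2 * j + 2)
      ≤ E.card * (8 * (2 * j + 1) * ∑ f, w f * (X E c f ^ 2 / kap E f) ^ j) := by
    refine h4.trans (le_of_eq ?_)
    ring
  exact le_of_mul_le_mul_left h5 hcard

theorem moment_pow (E : Finset ι) (c : ι → ℝ) (hc : ∀ k, |c k| ≤ 2)
    (w : (ι → Bool) → ℝ) (hw0 : ∀ f, 0 ≤ w f) (hw : Inv E w) (j : ℕ) :
    ∑ f, w f * (X E c f ^ 2 / kap E f) ^ j ≤ 16 ^ j * j.factorial * ∑ f, w f := by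
  induction j with
  | zero => simp
  | succ j ih =>
    refine (moment_step' E c hc w hw0 hw j).trans ?_
    have h0 : 0 ≤ ∑ f, w f := Finset.sum_nonneg (fun f _ => hw0 f)
    calc 8 * (2 * (j : ℝ) + 1) * ∑ f, w f * (X E c f ^ 2 / kap E f) ^ j
        ≤ 8 * (2 * (j : ℝ) + 1) * (16 ^ j * j.factorial * ∑ f, w f) :=
          mul_le_mul_of_nonneg_left ih (by positivity)
      _ ≤ 8 * (2 * (j : ℝ) + 2) * (16 ^ j * j.factorial * ∑ f, w f) := by
          refine mul_le_mul_of_nonneg_right (by linarith) (by positivity)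
      _ = 16 ^ (j + 1) * (j + 1).factorial * ∑ f, w f := by
          rw [Nat.factorial_succ]
          push_cast
          ring

theorem moment_one (E : Finset ι) (c : ι → ℝ) (hc : ∀ k, |c k| ≤ 2)
    (w : (ι → Bool) → ℝ) (hw0 : ∀ f, 0 ≤ w f) (hw : Inv E w) :
    ∑ f, w f * (X E c f ^ 2 / kap E f) ≤ 8 * ∑ f, w f := by
  have h := moment_step' E c hc w hw0 hw 0
  simpa using h

theorem moment_exp (E : Finset ι) (c : ι → ℝ) (hc : ∀ k, |c k| ≤ 2)
    (w : (ι → Bool) → ℝ) (hw0 : ∀ f, 0 ≤ w f) (hw : Inv E w) :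
    ∑ f, w f * Real.exp (X E c f ^ 2 / kap E f / 32) ≤ 2 * ∑ f, w f := by
  have h1 : ∀ f, HasSum (fun j : ℕ => w f * ((X E c f ^ 2 / kap E f / 32) ^ j / j.factorial))
      (w f * Real.exp (X E c f ^ 2 / kap E f / 32)) := by
    intro f
    apply HasSum.mul_left
    rw [Real.exp_eq_exp_ℝ]
    exact NormedSpace.expSeries_div_hasSum_exp _
  have h2 : HasSum (fun j : ℕ => ∑ f, w f * ((X E c f ^ 2 / kap E f / 32) ^ j / j.factorial))
      (∑ f, w f * Real.exp (X E c f ^ 2 / kap E f / 32)) :=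
    hasSum_sum (fun f _ => h1 f)
  have h3 : HasSum (fun j : ℕ => (1 / 2 : ℝ) ^ j * ∑ f, w f) (2 * ∑ f, w f) := by
    have := hasSum_geometric_two
    exact this.mul_right _
  refine hasSum_le (fun j => ?_) h2 h3
  have h4 := moment_pow E c hc w hw0 hw j
  have e1 : ∑ f, w f * ((X E c f ^ 2 / kap E f / 32) ^ j / j.factorial)
      = (∑ f, w f * (X E c f ^ 2 / kap E f) ^ j) * (1 / (32 ^ j * j.factorial)) := by
    rw [Finset.sum_mul]
    refine Finset.sum_congr rfl (fun f _ => ?_)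
    rw [div_pow (X E c f ^ 2 / kap E f) 32 j]
    field_simp
  rw [e1]
  have hf : (0 : ℝ) < j.factorial := by exact_mod_cast Nat.factorial_pos j
  calc _ ≤ (16 ^ j * j.factorial * ∑ f, w f) * (1 / (32 ^ j * j.factorial)) :=
        mul_le_mul_of_nonneg_right h4 (by positivity)
    _ = (1 / 2 : ℝ) ^ j * ∑ f, w f := by
        have : (32 : ℝ) ^ j = 16 ^ j * 2 ^ j := by rw [← mul_pow]; norm_num
        rw [this, one_div_pow]
        field_simp

end Pool.Agent.Helper143.OneMax
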