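import Mathlib

set_option autoImplicit false

namespace Pool.Agent.Helper143.OneMax

open Finset

set_option linter.unusedSectionVars false

variable {ι : Type*} [Fintype ι] [DecidableEq ι]

/-- inner product -/
def ip (q v : ι → ℝ) : ℝ := ∑ i, q i * v i

theorem ip_comm (q v : ι → ℝ) : ip q v = ip v q := by
  unfold ip; exact Finset.sum_congr rfl (fun i _ => mul_comm _ _)

theorem ip_add (q u v : ι → ℝ) : ip q (fun i => u i + v i) = ip q u + ip q v := by
  unfold ip; rw [← Finset.sum_add_distrib]; exact Finset.sum_congr rfl (fun i _ => by ring)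

theorem ip_sub_smul (r u v : ι → ℝ) (a : ℝ) :
    ip (fun i => r i - a * u i) v = ip r v - a * ip u v := by
  unfold ip; rw [Finset.mul_sum, ← Finset.sum_sub_distrib]
  exact Finset.sum_congr rfl (fun i _ => by ring)

/-- the contribution of a point (with both signs) -/
noncomputable def pr (q v : ι → ℝ) : ℝ := Real.exp (ip q v / 8) + Real.exp (-(ip q v) / 8)

theorem pr_pos (q v : ι → ℝ) : 0 < pr q v := add_pos (Real.exp_pos _) (Real.exp_pos _)

theorem two_le_pr (q v : ι → ℝ) : 2 ≤ pr q v := by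
  unfold pr
  have h1 := Real.add_one_le_exp (ip q v / 8)
  have h2 := Real.add_one_le_exp (-(ip q v) / 8)
  linarith

/-- partition function -/
noncomputable def Z (L : List (ι → ℝ)) (q : ι → ℝ) : ℝ := (L.map (fun v => pr q v)).sum

@[simp] theorem Z_nil (q : ι → ℝ) : Z [] q = 0 := by simp [Z]
@[simp] theorem Z_cons (v : ι → ℝ) (L : List (ι → ℝ)) (q : ι → ℝ) :
    Z (v :: L) q = pr q v + Z L q := by simp [Z]

theorem Z_nonneg (L : List (ι → ℝ)) (q : ι → ℝ) : 0 ≤ Z L q := by
  induction L with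
  | nil => simp
  | cons v L ih => rw [Z_cons]; have := pr_pos q v; linarith

theorem pr_le_Z {L : List (ι → ℝ)} {v : ι → ℝ} (hv : v ∈ L) (q : ι → ℝ) : pr q v ≤ Z L q := by
  induction L with
  | nil => simp at hv
  | cons u L ih =>
    rw [Z_cons]
    rcases List.mem_cons.1 hv with rfl | h
    · have := Z_nonneg L q; linarith
    · have := ih h; have := pr_pos q u; linarith

theorem two_le_Z {L : List (ι → ℝ)} (hL : L ≠ []) (q : ι → ℝ) : 2 ≤ Z L q := by
  obtain ⟨v, hv⟩ := List.exists_mem_of_ne_nil L hL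
  exact (two_le_pr q v).trans (pr_le_Z hv q)

/-- the quadratic part -/
def Qd (q : ι → ℝ) : ℝ := ∑ i, (2 * q i - q i ^ 2)

/-- the dual objective -/
noncomputable def Dq (L : List (ι → ℝ)) (q : ι → ℝ) : ℝ := Qd q - 16 * Real.log (Z L q)

theorem Qd_le (q : ι → ℝ) : Qd q ≤ Fintype.card ι := by
  unfold Qd
  calc ∑ i, (2 * q i - q i ^ 2) ≤ ∑ _i : ι, (1 : ℝ) :=
        Finset.sum_le_sum (fun i _ => by nlinarith [sq_nonneg (q i - 1)])
    _ = Fintype.card ι := by simp

theorem Qd_le' (q : ι → ℝ) (j : ι) : Qd q ≤ Fintype.card ι - (q j - 1) ^ 2 := by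
  have h : ∑ i, (2 * q i - q i ^ 2) + (q j - 1) ^ 2 ≤ ∑ _i : ι, (1 : ℝ) := by
    rw [← Finset.add_sum_erase _ _ (Finset.mem_univ j),
      ← Finset.add_sum_erase (Finset.univ) (fun _ => (1 : ℝ)) (Finset.mem_univ j)]
    have : ∑ i ∈ Finset.univ.erase j, (2 * q i - q i ^ 2) ≤ ∑ _i ∈ Finset.univ.erase j, (1 : ℝ) :=
      Finset.sum_le_sum (fun i _ => by nlinarith [sq_nonneg (q i - 1)])
    nlinarith
  unfold Qd
  simp only [Finset.sum_const, Finset.card_univ, nsmul_eq_mul, mul_one] at h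
  linarith

theorem Dq_le {L : List (ι → ℝ)} (hL : L ≠ []) (q : ι → ℝ) : Dq L q ≤ Qd q := by
  unfold Dq
  have h := two_le_Z hL q
  have := Real.log_nonneg (show (1 : ℝ) ≤ Z L q by linarith)
  linarith

theorem continuous_Z (L : List (ι → ℝ)) : Continuous (fun q : ι → ℝ => Z L q) := by
  induction L with
  | nil => simpa using continuous_const
  | cons v L ih =>
    simp only [Z_cons]
    refine Continuous.add ?_ ih
    unfold pr ip
    fun_prop

theorem continuous_Dq {L : List (ι → ℝ)} (hL : L ≠ []) : Continuous (Dq L) := by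
  unfold Dq Qd
  refine Continuous.sub (by fun_prop) (Continuous.mul continuous_const ?_)
  exact (continuous_Z L).log (fun q => by have := two_le_Z hL q; linarith)

theorem exists_max {L : List (ι → ℝ)} (hL : L ≠ []) : ∃ r : ι → ℝ, ∀ q, Dq L q ≤ Dq L r := by
  -- compact box
  set c : ℝ := Dq L 0 with hc
  obtain ⟨R, hR0, hR⟩ : ∃ R : ℝ, 0 ≤ R ∧ (Fintype.card ι : ℝ) - R ^ 2 < c := by
    refine ⟨(Fintype.card ι : ℝ) + |c| + 1, by positivity, ?_⟩
    have h1 : (0 : ℝ) ≤ Fintype.card ι := Nat.cast_nonneg _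
    have h2 := neg_abs_le c
    have h3 := abs_nonneg c
    nlinarith
  have hK : IsCompact (Metric.closedBall (0 : ι → ℝ) (R + 1)) := isCompact_closedBall _ _
  obtain ⟨r, _, hr⟩ := hK.exists_isMaxOn ⟨0, by simp; linarith⟩ (continuous_Dq hL).continuousOn
  refine ⟨r, fun q => ?_⟩
  by_cases hq : q ∈ Metric.closedBall (0 : ι → ℝ) (R + 1)
  · exact hr hq
  · have h0 : c ≤ Dq L r := hr (by simp; linarith)
    refine le_trans ?_ h0
    have hq' : ¬ (∀ i, ‖q i‖ ≤ R + 1) := by
      intro h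
      apply hq
      rw [mem_closedBall_zero_iff]
      exact (pi_norm_le_iff_of_nonneg (by linarith)).2 h
    push Not at hq'
    obtain ⟨j, hj⟩ := hq'
    have h1 := Dq_le hL q
    have h2 := Qd_le' q j
    have h3 : R ^ 2 ≤ (q j - 1) ^ 2 := by
      rw [Real.norm_eq_abs] at hj
      have h4 : R ≤ |q j - 1| := by
        have := abs_sub_abs_le_abs_sub (q j) 1
        rw [abs_one] at this
        linarith
      calc R ^ 2 ≤ |q j - 1| ^ 2 := pow_le_pow_left₀ hR0 h4 2
        _ = _ := sq_abs _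
    linarith

/-- all entries at most one in absolute value -/
def Bdd (L : List (ι → ℝ)) : Prop := ∀ v ∈ L, ∀ i, |v i| ≤ 1

theorem ip_update (q v : ι → ℝ) (j : ι) (h : ℝ) :
    ip (Function.update q j (q j + h)) v = ip q v + h * v j := by
  unfold ip
  rw [← Finset.add_sum_erase _ _ (Finset.mem_univ j),
    ← Finset.add_sum_erase (Finset.univ) (fun i => q i * v i) (Finset.mem_univ j)]
  rw [Finset.sum_congr rfl (fun i hi => by
    rw [Function.update_of_ne (Finset.ne_of_mem_erase hi)])]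
  simp
  ring

theorem Qd_update (q : ι → ℝ) (j : ι) (h : ℝ) :
    Qd (Function.update q j (q j + h)) = Qd q + 2 * h - 2 * q j * h - h ^ 2 := by
  unfold Qd
  rw [← Finset.add_sum_erase _ _ (Finset.mem_univ j),
    ← Finset.add_sum_erase (Finset.univ) (fun i => 2 * q i - q i ^ 2) (Finset.mem_univ j)]
  rw [Finset.sum_congr rfl (fun i hi => by
    rw [Function.update_of_ne (Finset.ne_of_mem_erase hi)])]
  rw [Function.update_self]
  ring

theorem Z_update_le {L : List (ι → ℝ)} (hB : Bdd L) (q : ι → ℝ) (j : ι) (h : ℝ) :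
    Z L (Function.update q j (q j + h)) ≤ Real.exp (|h| / 8) * Z L q := by
  induction L with
  | nil => simp
  | cons v L ih =>
    rw [Z_cons, Z_cons, mul_add]
    refine add_le_add ?_ (ih (fun u hu => hB u (List.mem_cons_of_mem _ hu)))
    have hv : |v j| ≤ 1 := hB v List.mem_cons_self j
    have h1 : |h * v j| ≤ |h| := by
      rw [abs_mul]
      exact mul_le_of_le_one_right (abs_nonneg _) hv
    rw [abs_le] at h1
    unfold pr
    rw [ip_update, mul_add, ← Real.exp_add, ← Real.exp_add]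
    refine add_le_add (Real.exp_le_exp.2 ?_) (Real.exp_le_exp.2 ?_)
    · linarith
    · linarith

theorem max_mem_box {L : List (ι → ℝ)} (hL : L ≠ []) (hB : Bdd L) {r : ι → ℝ}
    (hr : ∀ q, Dq L q ≤ Dq L r) (j : ι) : 0 ≤ r j ∧ r j ≤ 2 := by
  have key : ∀ h : ℝ, 2 * h - 2 * r j * h - h ^ 2 - 2 * |h| ≤ 0 := by
    intro h
    have h1 := hr (Function.update r j (r j + h))
    have hZ : 0 < Z L r := by have := two_le_Z hL r; linarith
    have hZ' : 0 < Z L (Function.update r j (r j + h)) := by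
      have := two_le_Z hL (Function.update r j (r j + h)); linarith
    have h2 : Real.log (Z L (Function.update r j (r j + h))) ≤ |h| / 8 + Real.log (Z L r) := by
      have := Real.log_le_log hZ' (Z_update_le hB r j h)
      rwa [Real.log_mul (Real.exp_pos _).ne' hZ.ne', Real.log_exp] at this
    unfold Dq at h1
    rw [Qd_update] at h1
    linarith
  constructor
  · by_contra hcon
    push Not at hcon
    have := key (-r j)
    rw [abs_of_pos (by linarith)] at this
    nlinarith
  · by_contra hcon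
    push Not at hcon
    have := key (-(r j - 2))
    rw [abs_of_neg (by linarith)] at this
    nlinarith

/-- the potential -/
noncomputable def Phi (L : List (ι → ℝ)) : ℝ := ⨆ q, Dq L q

theorem bdd_Dq {L : List (ι → ℝ)} (hL : L ≠ []) : BddAbove (Set.range (Dq L)) := by
  refine ⟨Fintype.card ι, ?_⟩
  rintro _ ⟨q, rfl⟩
  exact (Dq_le hL q).trans (Qd_le q)

theorem Dq_le_Phi {L : List (ι → ℝ)} (hL : L ≠ []) (q : ι → ℝ) : Dq L q ≤ Phi L :=
  le_ciSup (bdd_Dq hL) q

theorem Phi_eq {L : List (ι → ℝ)} (hL : L ≠ []) {r : ι → ℝ} (hr : ∀ q, Dq L q ≤ Dq L r) :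
    Phi L = Dq L r :=
  le_antisymm (ciSup_le hr) (Dq_le_Phi hL r)

theorem Phi_le {L : List (ι → ℝ)} (hL : L ≠ []) : Phi L ≤ Fintype.card ι :=
  ciSup_le (fun q => (Dq_le hL q).trans (Qd_le q))

theorem Phi_nonpos {L : List (ι → ℝ)} (h : (fun _ => (1 : ℝ)) ∈ L) : Phi L ≤ 0 := by
  refine ciSup_le (fun q => ?_)
  have h1 := pr_le_Z h q
  have h2 : Real.exp (ip q (fun _ => 1) / 8) ≤ Z L q :=
    (le_add_of_nonneg_right (Real.exp_pos _).le).trans h1
  have h3 := Real.log_le_log (Real.exp_pos _) h2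
  rw [Real.log_exp] at h3
  unfold Dq Qd
  unfold ip at h3
  simp only [mul_one] at h3
  rw [Finset.sum_sub_distrib, ← Finset.mul_sum]
  have h4 : 0 ≤ ∑ i, q i ^ 2 := Finset.sum_nonneg (fun i _ => sq_nonneg _)
  linarith

end Pool.Agent.Helper143.OneMax
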