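import Pool.Agent.Helper143.OneMax.StepDet

set_option autoImplicit false

namespace Pool.Agent.Helper143.OneMax

open Finset

set_option linter.unusedSectionVars false
set_option linter.unusedVariables false

variable {ι : Type*} [Fintype ι] [DecidableEq ι]

/-! ### Both sides of the difference set -/

theorem ind_sw_of_notMem {E : Finset ι} {k l : ι} (hk : k ∉ E) (hl : l ∉ E) (f : ι → Bool)
    {i : ι} (hi : i ∈ E) : ind (sw k l f) i = ind f i := by
  have h1 : i ≠ k := fun h => hk (h ▸ hi)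
  have h2 : i ≠ l := fun h => hl (h ▸ hi)
  simp [ind, sw, Equiv.swap_apply_of_ne_of_ne h1 h2]

theorem cnt_sw_of_notMem {E : Finset ι} {k l : ι} (hk : k ∉ E) (hl : l ∉ E) (f : ι → Bool) :
    cnt E (sw k l f) = cnt E f :=
  Finset.sum_congr rfl (fun i hi => ind_sw_of_notMem hk hl f hi)

theorem X_sw_of_notMem {E : Finset ι} {k l : ι} (hk : k ∉ E) (hl : l ∉ E) (c : ι → ℝ)
    (f : ι → Bool) : X E c (sw k l f) = X E c f := by
  unfold X
  rw [cnt_sw_of_notMem hk hl]
  exact Finset.sum_congr rfl (fun i hi => by rw [ind_sw_of_notMem hk hl f hi])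

theorem kap_sw_of_notMem {E : Finset ι} {k l : ι} (hk : k ∉ E) (hl : l ∉ E)
    (f : ι → Bool) : kap E (sw k l f) = kap E f := by
  unfold kap
  rw [cnt_sw_of_notMem hk hl]

theorem two_side_exp (D : Finset ι) (c : ι → ℝ) (hc : ∀ k, |c k| ≤ 2)
    (w : (ι → Bool) → ℝ) (hw0 : ∀ f, 0 ≤ w f) (hwD : Inv D w) (hwA : Inv Dᶜ w) :
    ∑ f, w f * Real.exp (X D c f ^ 2 / kap D f / 32 + X Dᶜ c f ^ 2 / kap Dᶜ f / 32)
      ≤ 4 * ∑ f, w f := by
  have h1 := moment_exp Dᶜ c hc (fun f => w f * Real.exp (X D c f ^ 2 / kap D f / 32))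
    (fun f => mul_nonneg (hw0 f) (Real.exp_pos _).le)
    (by
      intro k hk l hl f
      simp only
      have hk' : k ∉ D := Finset.mem_compl.1 hk
      have hl' : l ∉ D := Finset.mem_compl.1 hl
      rw [hwA k hk l hl, X_sw_of_notMem hk' hl', kap_sw_of_notMem hk' hl'])
  have h2 := moment_exp D c hc w hw0 hwD
  have h3 : ∑ f, w f * Real.exp (X D c f ^ 2 / kap D f / 32 + X Dᶜ c f ^ 2 / kap Dᶜ f / 32)
      = ∑ f, w f * Real.exp (X D c f ^ 2 / kap D f / 32)
        * Real.exp (X Dᶜ c f ^ 2 / kap Dᶜ f / 32) :=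
    Finset.sum_congr rfl (fun f _ => by rw [Real.exp_add]; ring)
  rw [h3]
  linarith

theorem sq_dev (E : Finset ι) (f : ι → Bool) :
    ∑ k ∈ E, (ind f k - cnt E f / E.card) ^ 2 = kap E f := by
  rcases E.eq_empty_or_nonempty with rfl | hE
  · simp [kap]
  have hcard : (E.card : ℝ) ≠ 0 := by
    have := hE.card_pos
    positivity
  have h1 : ∀ k ∈ E, (ind f k - cnt E f / E.card) ^ 2
      = ind f k - 2 * (cnt E f / E.card) * ind f k + (cnt E f / E.card) ^ 2 := by
    intro k _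
    have := ind_sq f k
    nlinarith
  rw [Finset.sum_congr rfl h1, Finset.sum_add_distrib, Finset.sum_sub_distrib, ← Finset.mul_sum,
    Finset.sum_const, nsmul_eq_mul]
  have h2 : ∑ k ∈ E, ind f k = cnt E f := rfl
  rw [h2]
  unfold kap
  field_simp
  ring

theorem X_eq_zero_of_kap {E : Finset ι} {f : ι → Bool} (h : kap E f = 0) (c : ι → ℝ) :
    X E c f = 0 := by
  rw [← sq_dev] at h
  have h1 := (Finset.sum_eq_zero_iff_of_nonneg (fun k _ => sq_nonneg _)).1 h
  unfold X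
  refine Finset.sum_eq_zero (fun k hk => ?_)
  have := h1 k hk
  rw [pow_eq_zero_iff (two_ne_zero)] at this
  rw [this, mul_zero]

theorem sq_add_div_le {x y P Q : ℝ} (hP : 0 ≤ P) (hQ : 0 ≤ Q) (hx : P = 0 → x = 0)
    (hy : Q = 0 → y = 0) : (x + y) ^ 2 / (P + Q) ≤ x ^ 2 / P + y ^ 2 / Q := by
  rcases eq_or_lt_of_le hP with h | h
  · rw [hx h.symm, ← h]; simp
  rcases eq_or_lt_of_le hQ with h' | h'
  · rw [hy h'.symm, ← h']; simp
  rw [div_add_div _ _ h.ne' h'.ne', div_le_div_iff₀ (by linarith) (by positivity)]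
  nlinarith [sq_nonneg (x * Q - y * P), mul_pos h h']

/-! ### Geometry of one query -/

/-- mean number of flips per coordinate of the side of `k` -/
noncomputable def mn (D : Finset ι) (f : ι → Bool) (k : ι) : ℝ :=
  if k ∈ D then cnt D f / D.card else cnt Dᶜ f / (Dᶜ : Finset ι).card

/-- the fluctuation vector -/
noncomputable def xi (D : Finset ι) (x : ι → ℝ) (f : ι → Bool) (k : ι) : ℝ :=
  -2 * x k * (ind f k - mn D f k)

/-- the mean vector -/
noncomputable def vbar (D : Finset ι) (x : ι → ℝ) (f : ι → Bool) (k : ι) : ℝ :=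
  x k * (1 - 2 * mn D f k)

theorem vbar_add_xi (D : Finset ι) (x : ι → ℝ) (f : ι → Bool) :
    (fun k => vbar D x f k + xi D x f k) = fun k => x k * (1 - 2 * ind f k) := by
  funext k
  unfold vbar xi
  ring

theorem sum_split (D : Finset ι) (g : ι → ℝ) : ∑ k, g k = ∑ k ∈ D, g k + ∑ k ∈ Dᶜ, g k :=
  (Finset.sum_add_sum_compl D g).symm

theorem ip_xi (D : Finset ι) (x c : ι → ℝ) (f : ι → Bool) :
    ip c (xi D x f) = -2 * (X D (fun k => c k * x k) f + X Dᶜ (fun k => c k * x k) f) := by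
  unfold ip
  rw [sum_split D, mul_add]
  unfold X
  rw [Finset.mul_sum, Finset.mul_sum]
  congr 1
  · refine Finset.sum_congr rfl (fun k hk => ?_)
    unfold xi mn
    rw [if_pos hk]
    ring
  · refine Finset.sum_congr rfl (fun k hk => ?_)
    unfold xi mn
    rw [if_neg (Finset.mem_compl.1 hk)]
    ring

theorem ip_xi_self (D : Finset ι) (x : ι → ℝ) (hx : ∀ k, x k ^ 2 = 1) (f : ι → Bool) :
    ip (xi D x f) (xi D x f) = 4 * (kap D f + kap Dᶜ f) := by
  unfold ip
  rw [sum_split D, mul_add, ← sq_dev, ← sq_dev, Finset.mul_sum, Finset.mul_sum]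
  congr 1
  · refine Finset.sum_congr rfl (fun k hk => ?_)
    unfold xi mn
    rw [if_pos hk]
    have := hx k
    calc _ = 4 * (x k ^ 2) * (ind f k - cnt D f / D.card) ^ 2 := by ring
      _ = _ := by rw [this]; ring
  · refine Finset.sum_congr rfl (fun k hk => ?_)
    unfold xi mn
    rw [if_neg (Finset.mem_compl.1 hk)]
    have := hx k
    calc _ = 4 * (x k ^ 2) * (ind f k - cnt Dᶜ f / (Dᶜ : Finset ι).card) ^ 2 := by ring
      _ = _ := by rw [this]; ring

theorem ratio_le (D : Finset ι) (x : ι → ℝ) (hx : ∀ k, x k ^ 2 = 1) (c : ι → ℝ)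
    (f : ι → Bool) : ip c (xi D x f) ^ 2 / ip (xi D x f) (xi D x f)
      ≤ X D (fun k => c k * x k) f ^ 2 / kap D f + X Dᶜ (fun k => c k * x k) f ^ 2 / kap Dᶜ f := by
  rw [ip_xi, ip_xi_self D x hx]
  have h := sq_add_div_le (x := X D (fun k => c k * x k) f) (y := X Dᶜ (fun k => c k * x k) f)
    (kap_nonneg D f) (kap_nonneg Dᶜ f)
    (fun h => X_eq_zero_of_kap h _) (fun h => X_eq_zero_of_kap h _)
  refine le_trans (le_of_eq ?_) h
  rw [mul_pow]
  have : ((-2 : ℝ)) ^ 2 = 4 := by norm_num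
  rw [this, mul_div_mul_left _ _ (by norm_num)]

theorem W_avg (D : Finset ι) (x : ι → ℝ) (hx : ∀ k, x k ^ 2 = 1)
    (w : (ι → Bool) → ℝ) (hw0 : ∀ f, 0 ≤ w f) (hwD : Inv D w) (hwA : Inv Dᶜ w)
    (u : ι → ℝ) (hu : ∀ i, |u i| ≤ 1) :
    ∑ f, w f * Real.exp (W (xi D x f) u) ≤ 4 * ∑ f, w f := by
  have hx' : ∀ k, |x k| = 1 := fun k => by
    have := hx k
    rw [← sq_abs] at this
    have h0 := abs_nonneg (x k)
    nlinarith
  have hc : ∀ k, |(1 - u k) * x k| ≤ 2 := by
    intro k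
    rw [abs_mul, hx' k, mul_one, abs_le]
    have := abs_le.1 (hu k)
    constructor <;> linarith
  refine le_trans (Finset.sum_le_sum (fun f _ => ?_)) (two_side_exp D _ hc w hw0 hwD hwA)
  refine mul_le_mul_of_nonneg_left (Real.exp_le_exp.2 ?_) (hw0 f)
  have h := ratio_le D x hx (fun i => 1 - u i) f
  unfold W
  calc _ = (ip (fun i => 1 - u i) (xi D x f) ^ 2 / ip (xi D x f) (xi D x f)) / 32 := by
        rw [div_div, mul_comm]
    _ ≤ _ := by
        rw [← add_div]
        exact div_le_div_of_nonneg_right h (by norm_num)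

theorem MM_avg (D : Finset ι) (x : ι → ℝ) (hx : ∀ k, x k ^ 2 = 1)
    (w : (ι → Bool) → ℝ) (hw0 : ∀ f, 0 ≤ w f) (hwD : Inv D w) (hwA : Inv Dᶜ w)
    (L : List (ι → ℝ)) (hB : Bdd L) (r : ι → ℝ) :
    ∑ f, w f * MM L r (xi D x f) ≤ 4 * (∑ f, w f) * Z L r := by
  induction L with
  | nil => simp [MM]
  | cons v L ih =>
    have h1 := ih (fun u hu => hB u (List.mem_cons_of_mem _ hu))
    have hv : ∀ i, |v i| ≤ 1 := hB v List.mem_cons_self
    have h2 := W_avg D x hx w hw0 hwD hwA v hv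
    have h3 := W_avg D x hx w hw0 hwD hwA (fun i => -v i) (fun i => by rw [abs_neg]; exact hv i)
    have h4 : ∑ f, w f * MM (v :: L) r (xi D x f)
        = Real.exp (ip r v / 8) * ∑ f, w f * Real.exp (W (xi D x f) v)
          + Real.exp (-(ip r v) / 8) * ∑ f, w f * Real.exp (W (xi D x f) (fun i => -v i))
          + ∑ f, w f * MM L r (xi D x f) := by
      rw [Finset.mul_sum, Finset.mul_sum, ← Finset.sum_add_distrib, ← Finset.sum_add_distrib]
      refine Finset.sum_congr rfl (fun f _ => ?_)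
      simp only [MM, List.map_cons, List.sum_cons]
      ring
    rw [h4, Z_cons]
    unfold pr
    have h5 := mul_le_mul_of_nonneg_left h2 (Real.exp_pos (ip r v / 8)).le
    have h6 := mul_le_mul_of_nonneg_left h3 (Real.exp_pos (-(ip r v) / 8)).le
    linarith

theorem g_avg (D : Finset ι) (x : ι → ℝ) (hx : ∀ k, x k ^ 2 = 1)
    (w : (ι → Bool) → ℝ) (hw0 : ∀ f, 0 ≤ w f) (hwD : Inv D w) (hwA : Inv Dᶜ w)
    (r : ι → ℝ) (hr : ∀ k, |r k| ≤ 2) :
    ∑ f, w f * (ip r (xi D x f) ^ 2 / ip (xi D x f) (xi D x f)) ≤ 16 * ∑ f, w f := by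
  have hx' : ∀ k, |x k| = 1 := fun k => by
    have := hx k
    rw [← sq_abs] at this
    have h0 := abs_nonneg (x k)
    nlinarith
  have hc : ∀ k, |r k * x k| ≤ 2 := by
    intro k
    rw [abs_mul, hx' k, mul_one]
    exact hr k
  have h1 := moment_one D _ hc w hw0 hwD
  have h2 := moment_one Dᶜ _ hc w hw0 hwA
  have h3 : ∑ f, w f * (ip r (xi D x f) ^ 2 / ip (xi D x f) (xi D x f))
      ≤ ∑ f, (w f * (X D (fun k => r k * x k) f ^ 2 / kap D f)
        + w f * (X Dᶜ (fun k => r k * x k) f ^ 2 / kap Dᶜ f)) := by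
    refine Finset.sum_le_sum (fun f _ => ?_)
    rw [← mul_add]
    exact mul_le_mul_of_nonneg_left (ratio_le D x hx r f) (hw0 f)
  rw [Finset.sum_add_distrib] at h3
  linarith

theorem pr_eq_cosh (q v : ι → ℝ) : pr q v = 2 * Real.cosh (ip q v / 8) := by
  unfold pr
  rw [Real.cosh_eq, neg_div]
  ring

theorem pr_le_of_abs {q u v : ι → ℝ} (h : |ip q u| ≤ |ip q v|) : pr q u ≤ pr q v := by
  rw [pr_eq_cosh, pr_eq_cosh]
  refine mul_le_mul_of_nonneg_left (Real.cosh_le_cosh.2 ?_) (by norm_num)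
  rw [abs_div, abs_div]
  exact div_le_div_of_nonneg_right h (abs_nonneg _)

theorem mn_mem (D : Finset ι) (f : ι → Bool) (E : Finset ι) :
    0 ≤ cnt E f / E.card ∧ cnt E f / E.card ≤ 1 := by
  constructor
  · exact div_nonneg (cnt_nonneg E f) (Nat.cast_nonneg _)
  · exact div_le_one_of_le₀ (cnt_le E f) (Nat.cast_nonneg _)

theorem pr_vbar_le (D : Finset ι) (x y : ι → ℝ) (hy : ∀ k, y k = if k ∈ D then -x k else x k)
    (f : ι → Bool) (q : ι → ℝ) : pr q (vbar D x f) ≤ max (pr q x) (pr q y) := by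
  set s : ℝ := 1 - 2 * (cnt D f / D.card) with hs
  set t : ℝ := 1 - 2 * (cnt Dᶜ f / (Dᶜ : Finset ι).card) with ht
  have hs' : |s| ≤ 1 := by
    have := mn_mem D f D
    rw [abs_le]; constructor <;> linarith
  have ht' : |t| ≤ 1 := by
    have := mn_mem D f Dᶜ
    rw [abs_le]; constructor <;> linarith
  have h1 : ip q (vbar D x f) = (t + s) / 2 * ip q x + (t - s) / 2 * ip q y := by
    unfold ip
    rw [Finset.mul_sum, Finset.mul_sum, ← Finset.sum_add_distrib]
    refine Finset.sum_congr rfl (fun k _ => ?_)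
    rw [hy k]
    unfold vbar mn
    split_ifs with h
    · rw [← hs]; ring
    · rw [← ht]; ring
  rcases le_total (|ip q x|) (|ip q y|) with h | h
  · refine le_trans (pr_le_of_abs ?_) (le_max_right _ _)
    rw [h1]
    rw [abs_le] at *
    rcases le_total 0 (ip q y) with h0 | h0
    · rw [abs_of_nonneg h0] at *
      constructor <;> nlinarith
    · rw [abs_of_nonpos h0] at *
      constructor <;> nlinarith
  · refine le_trans (pr_le_of_abs ?_) (le_max_left _ _)
    rw [h1]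
    rw [abs_le] at *
    rcases le_total 0 (ip q x) with h0 | h0
    · rw [abs_of_nonneg h0] at *
      constructor <;> nlinarith
    · rw [abs_of_nonpos h0] at *
      constructor <;> nlinarith

theorem log_const : 16 + 16 * Real.log 2 + 16 * Real.log 4 ≤ 50 := by
  have h1 : Real.log 4 = 2 * Real.log 2 := by
    rw [show (4 : ℝ) = 2 ^ 2 by norm_num, Real.log_pow]
    norm_num
  rw [h1]
  have := Real.log_two_lt_d9
  linarith

/-- One query lowers the potential by at most `50` in expectation. -/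
theorem step {L : List (ι → ℝ)} (hL : L ≠ []) (hB : Bdd L) (D : Finset ι) (x y : ι → ℝ)
    (hxL : x ∈ L) (hyL : y ∈ L) (hx : ∀ k, x k ^ 2 = 1)
    (hy : ∀ k, y k = if k ∈ D then -x k else x k)
    (w : (ι → Bool) → ℝ) (hw0 : ∀ f, 0 ≤ w f) (hwD : Inv D w) (hwA : Inv Dᶜ w)
    (hw1 : ∑ f, w f = 1) :
    Phi L - 50 ≤ ∑ f, w f * Phi ((fun k => x k * (1 - 2 * ind f k)) :: L) := by
  obtain ⟨r, hr⟩ := exists_max hL
  have hbox := max_mem_box hL hB hr
  have hr2 : ∀ k, |r k| ≤ 2 := fun k => by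
    have := hbox k
    rw [abs_le]; constructor <;> linarith
  have hZr : 0 < Z L r := by have := two_le_Z hL r; linarith
  have h1 : ∀ f, Phi L - ip r (xi D x f) ^ 2 / ip (xi D x f) (xi D x f) - 16 * Real.log 2
      - 16 * (Real.log 4 + MM L r (xi D x f) / (4 * Z L r) - 1)
      ≤ Phi ((fun k => x k * (1 - 2 * ind f k)) :: L) := by
    intro f
    have h2 := step_det hL hr (vbar D x f) (xi D x f) (fun q => by
      refine (pr_vbar_le D x y hy f q).trans (max_le (pr_le_Z hxL q) (pr_le_Z hyL q)))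
    rwa [vbar_add_xi] at h2
  have h3 : ∑ f, w f * (Phi L - ip r (xi D x f) ^ 2 / ip (xi D x f) (xi D x f)
      - 16 * Real.log 2 - 16 * (Real.log 4 + MM L r (xi D x f) / (4 * Z L r) - 1))
      ≤ ∑ f, w f * Phi ((fun k => x k * (1 - 2 * ind f k)) :: L) :=
    Finset.sum_le_sum (fun f _ => mul_le_mul_of_nonneg_left (h1 f) (hw0 f))
  refine le_trans ?_ h3
  have h4 : ∑ f, w f * (Phi L - ip r (xi D x f) ^ 2 / ip (xi D x f) (xi D x f)
      - 16 * Real.log 2 - 16 * (Real.log 4 + MM L r (xi D x f) / (4 * Z L r) - 1))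
      = (Phi L - 16 * Real.log 2 - 16 * Real.log 4 + 16) * ∑ f, w f
        - ∑ f, w f * (ip r (xi D x f) ^ 2 / ip (xi D x f) (xi D x f))
        - 4 / Z L r * ∑ f, w f * MM L r (xi D x f) := by
    rw [Finset.mul_sum, Finset.mul_sum, ← Finset.sum_sub_distrib, ← Finset.sum_sub_distrib]
    refine Finset.sum_congr rfl (fun f _ => ?_)
    field_simp
    ring
  rw [h4, hw1, mul_one]
  have h5 := g_avg D x hx w hw0 hwD hwA r hr2
  have h6 := MM_avg D x hx w hw0 hwD hwA L hB r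
  rw [hw1] at h5 h6
  have h7 : 4 / Z L r * ∑ f, w f * MM L r (xi D x f) ≤ 16 := by
    calc _ ≤ 4 / Z L r * (4 * 1 * Z L r) := mul_le_mul_of_nonneg_left h6 (by positivity)
      _ = 16 := by field_simp; norm_num
  have h8 := log_const
  linarith

end Pool.Agent.Helper143.OneMax
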