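import Pool.Agent.Helper143.OneMax.Moments
import Pool.Agent.Helper143.OneMax.Potential

set_option autoImplicit false

namespace Pool.Agent.Helper143.OneMax

open Finset

set_option linter.unusedSectionVars false

variable {ι : Type*} [Fintype ι] [DecidableEq ι]

/-- the exponent `W` -/
noncomputable def W (ξ u : ι → ℝ) : ℝ := (ip (fun i => 1 - u i) ξ) ^ 2 / (32 * ip ξ ξ)

/-- the reweighted partition function -/
noncomputable def MM (L : List (ι → ℝ)) (r ξ : ι → ℝ) : ℝ :=
  (L.map (fun v => Real.exp (ip r v / 8) * Real.exp (W ξ v)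
    + Real.exp (-(ip r v) / 8) * Real.exp (W ξ (fun i => -v i)))).sum

theorem ip_self_nonneg (ξ : ι → ℝ) : 0 ≤ ip ξ ξ :=
  Finset.sum_nonneg (fun i _ => mul_self_nonneg _)

theorem ip_eq_zero_of_self {ξ : ι → ℝ} (h : ip ξ ξ = 0) (r : ι → ℝ) : ip r ξ = 0 := by
  have h1 : ∀ i ∈ Finset.univ, ξ i * ξ i = 0 :=
    (Finset.sum_eq_zero_iff_of_nonneg (fun i _ => mul_self_nonneg _)).1 h
  unfold ip
  refine Finset.sum_eq_zero (fun i _ => ?_)
  have := h1 i (Finset.mem_univ i)
  rw [mul_self_eq_zero.1 this, mul_zero]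

theorem Qd_shift (r ξ : ι → ℝ) (a : ℝ) :
    Qd (fun i => r i - a * ξ i) = Qd r - 2 * a * ip (fun i => 1 - r i) ξ - a ^ 2 * ip ξ ξ := by
  unfold Qd ip
  rw [Finset.mul_sum, Finset.mul_sum, ← Finset.sum_sub_distrib, ← Finset.sum_sub_distrib]
  exact Finset.sum_congr rfl (fun i _ => by ring)

theorem Z_shift_le (L : List (ι → ℝ)) (r ξ : ι → ℝ) :
    Z L (fun i => r i - (ip r ξ / ip ξ ξ) * ξ i)
      * Real.exp ((ip r ξ / ip ξ ξ) * ip (fun i => 1 - r i) ξ / 8) ≤ MM L r ξ := by
  have hexp : ∀ v : ι → ℝ,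
      -((ip r ξ / ip ξ ξ) * ip ξ v) / 8 + (ip r ξ / ip ξ ξ) * ip (fun i => 1 - r i) ξ / 8
        ≤ W ξ v := by
    intro v
    have e1 : ip (fun i => 1 - r i) ξ = ip (fun _ => 1) ξ - ip r ξ := by
      unfold ip; rw [← Finset.sum_sub_distrib]; exact Finset.sum_congr rfl (fun i _ => by ring)
    have e2 : ip (fun i => 1 - v i) ξ = ip (fun _ => 1) ξ - ip ξ v := by
      unfold ip; rw [← Finset.sum_sub_distrib]; exact Finset.sum_congr rfl (fun i _ => by ring)
    unfold W
    rw [e1, e2]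
    rcases eq_or_lt_of_le (ip_self_nonneg ξ) with h0 | h0
    · rw [← h0]; simp
    · set G := ip r ξ
      set N := ip ξ ξ
      set O := ip (fun _ => 1) ξ
      set V := ip ξ v
      have h1 : -(G / N * V) / 8 + G / N * (O - G) / 8 = (4 * G * (O - G - V)) / (32 * N) := by
        field_simp
        ring
      rw [h1]
      refine div_le_div_of_nonneg_right ?_ (by linarith)
      nlinarith [sq_nonneg (2 * G - (O - V))]
  induction L with
  | nil => simp [MM]
  | cons v L ih =>
    rw [Z_cons, add_mul]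
    have h2 : MM (v :: L) r ξ = (Real.exp (ip r v / 8) * Real.exp (W ξ v)
        + Real.exp (-(ip r v) / 8) * Real.exp (W ξ (fun i => -v i))) + MM L r ξ := by
      simp [MM]
    rw [h2]
    refine add_le_add ?_ ih
    unfold pr
    rw [ip_sub_smul, add_mul]
    refine add_le_add ?_ ?_
    · rw [← Real.exp_add, ← Real.exp_add]
      refine Real.exp_le_exp.2 ?_
      have := hexp v
      linarith
    · rw [← Real.exp_add, ← Real.exp_add]
      refine Real.exp_le_exp.2 ?_
      have := hexp (fun i => -v i)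
      have e : ip ξ (fun i => -v i) = -(ip ξ v) := by
        unfold ip; rw [← Finset.sum_neg_distrib]; exact Finset.sum_congr rfl (fun i _ => by ring)
      rw [e] at this
      linarith

theorem step_det {L : List (ι → ℝ)} (hL : L ≠ []) {r : ι → ℝ} (hr : ∀ q, Dq L q ≤ Dq L r)
    (vb ξ : ι → ℝ) (hb : ∀ q, pr q vb ≤ Z L q) :
    Phi L - (ip r ξ) ^ 2 / ip ξ ξ - 16 * Real.log 2
      - 16 * (Real.log 4 + MM L r ξ / (4 * Z L r) - 1)
      ≤ Phi ((fun i => vb i + ξ i) :: L) := by
  set α := ip r ξ / ip ξ ξ with hα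
  set q : ι → ℝ := fun i => r i - α * ξ i with hq
  have hL' : ((fun i => vb i + ξ i) :: L) ≠ [] := by simp
  refine le_trans ?_ (Dq_le_Phi hL' q)
  rw [Phi_eq hL hr]
  have hZr : 0 < Z L r := by have := two_le_Z hL r; linarith
  have hZq : 0 < Z L q := by have := two_le_Z hL q; linarith
  -- orthogonality
  have h0 : ip q ξ = 0 := by
    rw [hq, ip_sub_smul]
    rcases eq_or_lt_of_le (ip_self_nonneg ξ) with h | h
    · rw [← h, ip_eq_zero_of_self h.symm r]; simp
    · rw [hα]; field_simp; ring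
  have h1 : pr q (fun i => vb i + ξ i) = pr q vb := by
    unfold pr
    rw [ip_add, h0, add_zero]
  have h2 : Z ((fun i => vb i + ξ i) :: L) q ≤ 2 * Z L q := by
    rw [Z_cons, h1]
    have := hb q
    linarith
  have h3 := Z_shift_le L r ξ
  have hMM : 0 < MM L r ξ := lt_of_lt_of_le (mul_pos hZq (Real.exp_pos _)) h3
  have h4 : Real.log (Z L q) + α * ip (fun i => 1 - r i) ξ / 8 ≤ Real.log (MM L r ξ) := by
    have := Real.log_le_log (mul_pos hZq (Real.exp_pos _)) h3
    rwa [Real.log_mul hZq.ne' (Real.exp_pos _).ne', Real.log_exp] at this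
  have h5 : Real.log (Z ((fun i => vb i + ξ i) :: L) q) ≤ Real.log 2 + Real.log (Z L q) := by
    have hpos : 0 < Z ((fun i => vb i + ξ i) :: L) q := by
      have := two_le_Z hL' q; linarith
    have := Real.log_le_log hpos h2
    rwa [Real.log_mul (by norm_num) hZq.ne'] at this
  have h6 : Real.log (MM L r ξ) - Real.log (Z L r)
      ≤ Real.log 4 + MM L r ξ / (4 * Z L r) - 1 := by
    have h7 : 0 < MM L r ξ / (4 * Z L r) := by positivity
    have h8 := Real.log_le_sub_one_of_pos h7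
    rw [Real.log_div hMM.ne' (by positivity), Real.log_mul (by norm_num) hZr.ne'] at h8
    linarith
  have h9 : α ^ 2 * ip ξ ξ = (ip r ξ) ^ 2 / ip ξ ξ := by
    rw [hα]
    rcases eq_or_lt_of_le (ip_self_nonneg ξ) with h | h
    · rw [← h]; simp
    · field_simp
  have h10 := Qd_shift r ξ α
  unfold Dq
  rw [← hq] at h10
  rw [h10, h9]
  linarith

end Pool.Agent.Helper143.OneMax
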